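import Pool.Agent.W890.SF.Stm

/-!
# Project SAM: perfect matchings in the extremal case
-/

set_option autoImplicit false

namespace Pool.Agent.W414.SAM

open Finset Pool.Agent.W890.SF

section comb

variable {V : Type} [DecidableEq V]

theorem tys_sub (k j : ℕ) (A B U : Finset V) (v : V) :
    tys k j (A \ U) (B \ U) v ⊆ tys k j A B v := by
  intro S hS
  unfold tys at hS ⊢
  rw [mem_filter, mem_powersetCard] at hS ⊢
  obtain ⟨⟨h1, h2⟩, h3⟩ := hS
  have hU : ∀ x ∈ S, x ∉ U := by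
    intro x hx
    have := (mem_erase.1 (h1 hx)).2
    rcases mem_union.1 this with h | h
    · exact (mem_sdiff.1 h).2
    · exact (mem_sdiff.1 h).2
  refine ⟨⟨fun x hx => ?_, h2⟩, ?_⟩
  · have h4 := mem_erase.1 (h1 hx)
    refine mem_erase.2 ⟨h4.1, ?_⟩
    rcases mem_union.1 h4.2 with h | h
    · exact mem_union_left _ (mem_sdiff.1 h).1
    · exact mem_union_right _ (mem_sdiff.1 h).1
  · rw [← h3]
    congr 1
    ext x
    simp only [mem_inter, mem_sdiff]
    exact ⟨fun h => ⟨h.1, h.2, hU x h.1⟩, fun h => ⟨h.1, h.2.1⟩⟩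

theorem miss_le (k j : ℕ) (H : Finset (Finset V)) (A B U : Finset V) (v : V) (c : ℝ)
    (h : ((tys k j A B v).card : ℝ) - c ≤ ((ty k j H A B v).card : ℝ)) :
    ((tys k j (A \ U) (B \ U) v).card : ℝ) - c ≤ ((ty k j H (A \ U) (B \ U) v).card : ℝ) := by
  have e1 := card_filter_add_card_filter_not (s := tys k j A B v) (fun S => insert v S ∈ H)
  have e2 := card_filter_add_card_filter_not (s := tys k j (A \ U) (B \ U) v)
    (fun S => insert v S ∈ H)
  have e3 : ((tys k j (A \ U) (B \ U) v).filter (fun S => ¬ insert v S ∈ H)).card ≤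
      ((tys k j A B v).filter (fun S => ¬ insert v S ∈ H)).card :=
    card_le_card (filter_subset_filter _ (tys_sub k j A B U v))
  unfold ty at h ⊢
  have e1' : ((((tys k j A B v).filter (fun S => insert v S ∈ H)).card : ℕ) : ℝ) +
      (((tys k j A B v).filter (fun S => ¬ insert v S ∈ H)).card : ℝ) =
      ((tys k j A B v).card : ℝ) := by exact_mod_cast e1
  have e2' : ((((tys k j (A \ U) (B \ U) v).filter (fun S => insert v S ∈ H)).card : ℕ) : ℝ) +
      (((tys k j (A \ U) (B \ U) v).filter (fun S => ¬ insert v S ∈ H)).card : ℝ) =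
      ((tys k j (A \ U) (B \ U) v).card : ℝ) := by exact_mod_cast e2
  have e3' : (((tys k j (A \ U) (B \ U) v).filter (fun S => ¬ insert v S ∈ H)).card : ℝ) ≤
      (((tys k j A B v).filter (fun S => ¬ insert v S ∈ H)).card : ℝ) := by exact_mod_cast e3
  linarith

theorem card_inc_le [Fintype V] (r : ℕ) (u : V) :
    (((univ : Finset V).powersetCard (r + 1)).filter (fun S => u ∈ S)).card ≤
      (Fintype.card V) ^ r := by
  refine le_trans (card_le_card_of_injOn (fun S => S.erase u)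
    (t := (univ : Finset V).powersetCard r) ?_ ?_) ?_
  · intro S hS
    have h1 := mem_filter.1 hS
    have h2 := mem_powersetCard.1 h1.1
    refine mem_powersetCard.2 ⟨subset_univ _, ?_⟩
    rw [card_erase_of_mem h1.2, h2.2]
    rfl
  · intro S hS S' hS' h
    have h1 := (mem_filter.1 hS).2
    have h2 := (mem_filter.1 hS').2
    rw [← insert_erase h1, ← insert_erase h2]
    exact congrArg _ h
  · rw [card_powersetCard, card_univ]
    exact Nat.choose_le_pow _ _

theorem lost [Fintype V] (k : ℕ) (hk : 2 ≤ k) (j : ℕ) (H : Finset (Finset V))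
    (A B U : Finset V) (v : V) :
    (ty k j H A B v).card ≤
      (ty k j H (A \ U) (B \ U) v).card + U.card * (Fintype.card V) ^ (k - 2) := by
  have hsub : ty k j H A B v ⊆ ty k j H (A \ U) (B \ U) v ∪
      U.biUnion (fun u => ((univ : Finset V).powersetCard (k - 2 + 1)).filter (fun S => u ∈ S)) := by
    intro S hS
    by_cases h : ∃ u ∈ U, u ∈ S
    · obtain ⟨u, hu, huS⟩ := h
      refine mem_union_right _ (mem_biUnion.2 ⟨u, hu, mem_filter.2 ⟨?_, huS⟩⟩)
      unfold ty tys at hS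
      have h1 := (mem_filter.1 (mem_filter.1 hS).1).1
      refine mem_powersetCard.2 ⟨subset_univ _, ?_⟩
      rw [(mem_powersetCard.1 h1).2]
      omega
    · push Not at h
      refine mem_union_left _ ?_
      unfold ty tys at hS ⊢
      rw [mem_filter, mem_filter, mem_powersetCard] at hS ⊢
      obtain ⟨⟨⟨h1, h2⟩, h3⟩, h4⟩ := hS
      refine ⟨⟨⟨fun x hx => ?_, h2⟩, ?_⟩, h4⟩
      · have h5 := mem_erase.1 (h1 hx)
        have hxU : x ∉ U := fun hxU => h x hxU hx
        refine mem_erase.2 ⟨h5.1, ?_⟩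
        rcases mem_union.1 h5.2 with h6 | h6
        · exact mem_union_left _ (mem_sdiff.2 ⟨h6, hxU⟩)
        · exact mem_union_right _ (mem_sdiff.2 ⟨h6, hxU⟩)
      · rw [← h3]
        congr 1
        ext x
        simp only [mem_inter, mem_sdiff]
        exact ⟨fun h => ⟨h.1, h.2.1⟩, fun h' => ⟨h'.1, h'.2, fun hxU => h x hxU h'.1⟩⟩
  refine (card_le_card hsub).trans ((card_union_le _ _).trans ?_)
  refine Nat.add_le_add_left ?_ _
  refine card_biUnion_le.trans ?_
  refine (sum_le_card_nsmul _ _ _ (fun u _ => card_inc_le (k - 2) u)).trans ?_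
  rw [smul_eq_mul]

theorem typ_mono [Fintype V] {k : ℕ} {δ δ' : ℝ} (h : δ ≤ δ') {H : Finset (Finset V)}
    {A B X : Finset V} (hT : Typ k δ H A B X) : Typ k δ' H A B X := by
  have hn : (0 : ℝ) ≤ (Fintype.card V : ℝ) := Nat.cast_nonneg _
  have hp : δ * (Fintype.card V : ℝ) ^ (k - 1) ≤ δ' * (Fintype.card V : ℝ) ^ (k - 1) :=
    mul_le_mul_of_nonneg_right h (pow_nonneg hn _)
  have h1 : δ * (Fintype.card V : ℝ) ≤ δ' * (Fintype.card V : ℝ) :=
    mul_le_mul_of_nonneg_right h hn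
  refine ⟨hT.dAB, hT.dAX, hT.dBX, hT.cov, hT.xs.trans h1, ?_, ?_, ?_, ?_⟩
  · have := hT.a1
    rw [add_mul] at this ⊢
    linarith
  · have := hT.a2
    rw [sub_mul] at this ⊢
    linarith
  · intro v hv
    have := hT.hA v hv
    linarith
  · intro v hv j hj
    have := hT.hB v hv j hj
    linarith

end comb

/-! ### The degree condition -/

theorem desc_le (m M : ℕ) (h : m ≤ M) : ∀ r : ℕ,
    m.descFactorial r * M ^ r ≤ m ^ r * M.descFactorial r
  | 0 => by simp
  | r + 1 => by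
    have ih := desc_le m M h r
    rw [Nat.descFactorial_succ, Nat.descFactorial_succ, pow_succ, pow_succ]
    rcases le_or_gt r m with hr | hr
    · have h1 : (m - r) * M ≤ m * (M - r) := by
        obtain ⟨a, rfl⟩ := Nat.exists_eq_add_of_le hr
        obtain ⟨b, rfl⟩ := Nat.exists_eq_add_of_le h
        have e1 : r + a - r = a := by omega
        have e2 : r + a + b - r = a + b := by omega
        rw [e1, e2]
        nlinarith
      calc (m - r) * m.descFactorial r * (M ^ r * M)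
          = ((m - r) * M) * (m.descFactorial r * M ^ r) := by ring
        _ ≤ (m * (M - r)) * (m ^ r * M.descFactorial r) := Nat.mul_le_mul h1 ih
        _ = m ^ r * m * ((M - r) * M.descFactorial r) := by ring
    · rw [Nat.sub_eq_zero_of_le hr.le, zero_mul, zero_mul]
      exact Nat.zero_le _

theorem choose_le (m M : ℕ) (h : m ≤ M) (hM : 0 < M) (r : ℕ) :
    ((m.choose r : ℕ) : ℝ) ≤ ((m : ℝ) / M) ^ r * ((M.choose r : ℕ) : ℝ) := by
  have h1 := desc_le m M h r
  rw [Nat.descFactorial_eq_factorial_mul_choose, Nat.descFactorial_eq_factorial_mul_choose] at h1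
  have h2 : m.choose r * M ^ r ≤ m ^ r * M.choose r := by
    have hf : 0 < r.factorial := Nat.factorial_pos r
    have h3 : r.factorial * (m.choose r * M ^ r) ≤ r.factorial * (m ^ r * M.choose r) := by
      calc r.factorial * (m.choose r * M ^ r) = r.factorial * m.choose r * M ^ r := by ring
        _ ≤ m ^ r * (r.factorial * M.choose r) := h1
        _ = r.factorial * (m ^ r * M.choose r) := by ring
    exact Nat.le_of_mul_le_mul_left h3 hf
  have h3 : ((m.choose r : ℕ) : ℝ) * (M : ℝ) ^ r ≤ (m : ℝ) ^ r * ((M.choose r : ℕ) : ℝ) := by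
    exact_mod_cast h2
  have hMr : (0 : ℝ) < (M : ℝ) ^ r := by
    have : (0 : ℝ) < M := by exact_mod_cast hM
    positivity
  rw [div_pow, div_mul_eq_mul_div, le_div_iff₀ hMr]
  exact h3

theorem deg_lim (k : ℕ) (hk : 3 ≤ k) (η : ℝ) (hη : 0 < η) : ∃ n0 : ℕ, ∀ n : ℕ, n0 ≤ n → k ∣ n →
    (((n - n / k).choose (k - 1) : ℕ) : ℝ) ≤
      ((1 - 1 / (k : ℝ)) ^ (k - 1) + η) * (((n - 1).choose (k - 1) : ℕ) : ℝ) := by
  have hlim : Filter.Tendsto (fun n : ℕ => ((1 - 1 / (k : ℝ)) * ((n : ℝ) / ((n : ℝ) - 1))) ^ (k - 1))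
      Filter.atTop (nhds (((1 - 1 / (k : ℝ)) * 1) ^ (k - 1))) := by
    refine Filter.Tendsto.pow (Filter.Tendsto.const_mul _ ?_) _
    have h1 : Filter.Tendsto (fun n : ℕ => 1 + 1 / ((n : ℝ) - 1)) Filter.atTop (nhds (1 + 0)) := by
      refine tendsto_const_nhds.add ?_
      have h2 : Filter.Tendsto (fun n : ℕ => (n : ℝ) - 1) Filter.atTop Filter.atTop :=
        Filter.tendsto_atTop_add_const_right _ _ tendsto_natCast_atTop_atTop
      exact tendsto_const_nhds.div_atTop h2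
    rw [add_zero] at h1
    refine h1.congr' ?_
    filter_upwards [Filter.eventually_ge_atTop 2] with n hn
    have hn' : (2 : ℝ) ≤ n := by exact_mod_cast hn
    have : (n : ℝ) - 1 ≠ 0 := by linarith
    field_simp
    ring
  rw [mul_one] at hlim
  have hev := hlim.eventually (gt_mem_nhds (show (1 - 1 / (k : ℝ)) ^ (k - 1) <
    (1 - 1 / (k : ℝ)) ^ (k - 1) + η by linarith))
  obtain ⟨n0, hn0⟩ := Filter.eventually_atTop.1 hev
  refine ⟨max n0 k, fun n hn hkn => ?_⟩
  have h1 := hn0 n ((le_max_left _ _).trans hn)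
  have hkn' : k ≤ n := (le_max_right _ _).trans hn
  obtain ⟨q, rfl⟩ := hkn
  have hk0 : 0 < k := by omega
  have hq : 0 < q := by
    rcases Nat.eq_zero_or_pos q with h | h
    · subst h; omega
    · exact h
  have e1 : k * q / k = q := Nat.mul_div_cancel_left q hk0
  rw [e1]
  have hm : k * q - q ≤ k * q - 1 := by omega
  have hM : 0 < k * q - 1 := by
    have : 3 * 1 ≤ k * q := Nat.mul_le_mul hk hq
    omega
  refine (choose_le _ _ hm hM (k - 1)).trans ?_
  refine mul_le_mul_of_nonneg_right ?_ (Nat.cast_nonneg _)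
  have hq1 : q ≤ k * q := Nat.le_mul_of_pos_left q hk0
  have e2 : ((k * q - q : ℕ) : ℝ) / ((k * q - 1 : ℕ) : ℝ) =
      (1 - 1 / (k : ℝ)) * (((k * q : ℕ) : ℝ) / (((k * q : ℕ) : ℝ) - 1)) := by
    have hkR : (k : ℝ) ≠ 0 := by
      have : (0 : ℝ) < k := by exact_mod_cast hk0
      exact this.ne'
    rw [Nat.cast_sub hq1, Nat.cast_sub (show 1 ≤ k * q by omega), Nat.cast_one, Nat.cast_mul]
    field_simp
  rw [e2]
  exact h1.le

/-! ### The extremal case -/

/-- The end of the proof, once the balancing matching `M1` has been found. -/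
theorem finish {n k n3 : ℕ} (hk : 3 ≤ k) (hkn : k ∣ n) {d ε δ3 : ℝ} (hd : 0 < d) (hε : 0 < ε)
    (H : Finset (Finset (Fin n))) (hU : Unif k H) (A B X : Finset (Fin n)) (hT : Typ k d H A B X)
    (h3 : ∀ (α : Type) [DecidableEq α] (N : ℕ) (A B XA XB : Finset α) (H : Finset (Finset α)),
      n3 ≤ N →
      Disjoint A B → Disjoint XA XB → Disjoint (A ∪ B) (XA ∪ XB) →
      (A.card + B.card + XA.card + XB.card = N) → (XA.card : ℝ) ≤ δ3 * N → (XB.card : ℝ) ≤ δ3 * N →
      B.card + XB.card = (k - 1) * (A.card + XA.card) →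
      (∀ v ∈ A, ((tys k 0 A B v).card : ℝ) - δ3 * (N : ℝ) ^ (k - 1) ≤ ((ty k 0 H A B v).card : ℝ)) →
      (∀ v ∈ B, ((tys k 1 A B v).card : ℝ) - δ3 * (N : ℝ) ^ (k - 1) ≤ ((ty k 1 H A B v).card : ℝ)) →
      (∀ v ∈ XA, ε / 2 * (N : ℝ) ^ (k - 1) ≤ ((ty k 0 H A B v).card : ℝ)) →
      (∀ v ∈ XB, ε / 2 * (N : ℝ) ^ (k - 1) ≤ ((ty k 1 H A B v).card : ℝ)) →
      ∃ M ⊆ H, Mtch M ∧ M.biUnion id = A ∪ B ∪ (XA ∪ XB))
    (hn3 : 2 * n3 ≤ n) (c1 : d * 2 ^ (k - 1) ≤ δ3) (c2 : 4 * k * d ≤ ε) (c3 : 4 * k * d ≤ 1)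
    (XA XB : Finset (Fin n)) (hX : XA ∪ XB = X) (hXd : Disjoint XA XB)
    (hXA : ∀ v ∈ XA, ε * (n : ℝ) ^ (k - 1) ≤ ((ty k 0 H A B v).card : ℝ))
    (hXB : ∀ v ∈ XB, ε * (n : ℝ) ^ (k - 1) ≤ ((ty k 1 H A B v).card : ℝ))
    (M1 : Finset (Finset (Fin n))) (hM1 : M1 ⊆ H) (hMt : Mtch M1)
    (hdis : ∀ e ∈ M1, Disjoint e XA) (hcard : (M1.card : ℝ) ≤ 2 * d * n)
    (hbal : k * ((A \ M1.biUnion id).card + XA.card) + k * M1.card = n) : HasM H (n / k) := by
  have hcV : Fintype.card (Fin n) = n := Fintype.card_fin n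
  have hn0 : (0 : ℝ) ≤ (n : ℝ) := Nat.cast_nonneg n
  have hkR : (3 : ℝ) ≤ (k : ℝ) := by exact_mod_cast hk
  set U := M1.biUnion id with hUdef
  have hUcard : U.card = k * M1.card := by
    rw [hUdef, card_biUnion (t := id) (fun e he e' he' hne => hMt e he e' he' hne)]
    rw [sum_congr rfl (fun e he => (hU e (hM1 he) : (id e).card = k)), sum_const, smul_eq_mul,
      mul_comm]
  have hUXA : Disjoint U XA := by
    rw [hUdef, disjoint_biUnion_left]
    exact hdis
  -- the four parts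
  have hAX : Disjoint A (XA ∪ XB) := hX ▸ hT.dAX
  have hBX : Disjoint B (XA ∪ XB) := hX ▸ hT.dBX
  have hABX : Disjoint (A ∪ B) (XA ∪ XB) := disjoint_union_left.2 ⟨hAX, hBX⟩
  have hXAU : XA \ U = XA := sdiff_eq_self_of_disjoint hUXA.symm
  have hpart : (A \ U) ∪ (B \ U) ∪ (XA ∪ (XB \ U)) = univ \ U := by
    have h1 : (A ∪ B ∪ (XA ∪ XB)) \ U = univ \ U := by rw [hX, hT.cov]
    rw [← h1, union_sdiff_distrib, union_sdiff_distrib, union_sdiff_distrib, hXAU]
  have hd1 : Disjoint (A \ U) (B \ U) := hT.dAB.mono sdiff_subset sdiff_subset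
  have hd2 : Disjoint XA (XB \ U) := hXd.mono le_rfl sdiff_subset
  have hd3 : Disjoint ((A \ U) ∪ (B \ U)) (XA ∪ (XB \ U)) :=
    hABX.mono (union_subset_union sdiff_subset sdiff_subset)
      (union_subset_union le_rfl sdiff_subset)
  have hNU : (A \ U).card + (B \ U).card + XA.card + (XB \ U).card + U.card = n := by
    have h1 : ((A \ U) ∪ (B \ U) ∪ (XA ∪ (XB \ U))).card =
        (A \ U).card + (B \ U).card + (XA.card + (XB \ U).card) := by
      rw [card_union_of_disjoint hd3, card_union_of_disjoint hd1, card_union_of_disjoint hd2]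
    rw [hpart] at h1
    have h2 := card_sdiff_add_card_eq_card (subset_univ U)
    rw [card_univ, hcV] at h2
    omega
  obtain ⟨N, hN⟩ : ∃ N, N = (A \ U).card + (B \ U).card + XA.card + (XB \ U).card := ⟨_, rfl⟩
  have hNn : N + k * M1.card = n := by rw [hN, ← hUcard]; exact hNU
  have hNle : N ≤ n := by omega
  have hNle' : (N : ℝ) ≤ n := by exact_mod_cast hNle
  have hkM : (k : ℝ) * M1.card ≤ (n : ℝ) / 2 := by
    have h1 : (k : ℝ) * M1.card ≤ k * (2 * d * n) := mul_le_mul_of_nonneg_left hcard (by linarith)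
    have h2 : (k : ℝ) * (2 * d * n) = (4 * k * d) * n / 2 := by ring
    have h3 : (4 * k * d) * n ≤ 1 * n := mul_le_mul_of_nonneg_right c3 hn0
    linarith
  have hNR : (N : ℝ) + k * M1.card = n := by exact_mod_cast hNn
  have hNhalf : (n : ℝ) ≤ 2 * N := by linarith
  have hNhalf' : n ≤ 2 * N := by exact_mod_cast hNhalf
  have hpow : (n : ℝ) ^ (k - 1) ≤ 2 ^ (k - 1) * (N : ℝ) ^ (k - 1) := by
    rw [← mul_pow]
    exact pow_le_pow_left₀ hn0 hNhalf _
  have hδ3 : d * (n : ℝ) ^ (k - 1) ≤ δ3 * (N : ℝ) ^ (k - 1) := by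
    calc d * (n : ℝ) ^ (k - 1) ≤ d * (2 ^ (k - 1) * (N : ℝ) ^ (k - 1)) :=
          mul_le_mul_of_nonneg_left hpow hd.le
      _ = d * 2 ^ (k - 1) * (N : ℝ) ^ (k - 1) := by ring
      _ ≤ δ3 * (N : ℝ) ^ (k - 1) :=
          mul_le_mul_of_nonneg_right c1 (pow_nonneg (Nat.cast_nonneg N) _)
  have h2k : (2 : ℝ) ≤ 2 ^ (k - 1) := by
    have : (2 : ℝ) ^ 1 ≤ 2 ^ (k - 1) := pow_le_pow_right₀ (by norm_num) (by omega)
    simpa using this
  have hXs : ∀ Y : Finset (Fin n), Y ⊆ X → (Y.card : ℝ) ≤ δ3 * N := by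
    intro Y hY
    have h1 : (Y.card : ℝ) ≤ X.card := by exact_mod_cast card_le_card hY
    have h2 := hT.xs
    rw [hcV] at h2
    have h3 : d * (n : ℝ) ≤ d * (2 * N) := mul_le_mul_of_nonneg_left hNhalf hd.le
    have h4 : d * 2 ≤ δ3 := le_trans (mul_le_mul_of_nonneg_left h2k hd.le) c1
    have h5 : d * 2 * N ≤ δ3 * N := mul_le_mul_of_nonneg_right h4 (Nat.cast_nonneg N)
    linarith
  -- lost sets
  have hlost : ∀ (j : ℕ) (v : Fin n), ε * (n : ℝ) ^ (k - 1) ≤ ((ty k j H A B v).card : ℝ) →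
      ε / 2 * (N : ℝ) ^ (k - 1) ≤ ((ty k j H (A \ U) (B \ U) v).card : ℝ) := by
    intro j v hv
    have h1 := lost k (by omega) j H A B U v
    rw [hcV, hUcard] at h1
    have h1' : ((ty k j H A B v).card : ℝ) ≤ ((ty k j H (A \ U) (B \ U) v).card : ℝ) +
        (k : ℝ) * M1.card * (n : ℝ) ^ (k - 2) := by exact_mod_cast h1
    have h2 : (k : ℝ) * M1.card * (n : ℝ) ^ (k - 2) ≤ ε / 2 * (n : ℝ) ^ (k - 1) := by
      have e1 : (n : ℝ) ^ (k - 1) = n * (n : ℝ) ^ (k - 2) := by
        rw [← pow_succ']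
        congr 1
        omega
      have h3 : (k : ℝ) * M1.card ≤ ε / 2 * n := by
        have h4 : (k : ℝ) * M1.card ≤ k * (2 * d * n) :=
          mul_le_mul_of_nonneg_left hcard (by linarith)
        have h5 : (k : ℝ) * (2 * d * n) = (4 * k * d) * n / 2 := by ring
        have h6 : (4 * k * d) * n ≤ ε * n := mul_le_mul_of_nonneg_right c2 hn0
        linarith
      rw [e1, ← mul_assoc]
      exact mul_le_mul_of_nonneg_right h3 (pow_nonneg hn0 _)
    have h3 : ε / 2 * (N : ℝ) ^ (k - 1) ≤ ε / 2 * (n : ℝ) ^ (k - 1) :=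
      mul_le_mul_of_nonneg_left (pow_le_pow_left₀ (Nat.cast_nonneg N) hNle' _) (by linarith)
    linarith
  obtain ⟨M, hMH, hMm, hMU⟩ := h3 (Fin n) N (A \ U) (B \ U) XA (XB \ U) H (by omega) hd1 hd2 hd3
    hN.symm (hXs XA (hX ▸ subset_union_left))
    (hXs (XB \ U) (sdiff_subset.trans (hX ▸ subset_union_right)))
    (by
      have h1 : N = k * ((A \ U).card + XA.card) := by omega
      obtain ⟨k', rfl⟩ : ∃ k', k = k' + 1 := ⟨k - 1, by omega⟩
      rw [Nat.add_sub_cancel]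
      rw [hN, Nat.succ_mul] at h1
      omega)
    (by
      intro v hv
      have h1 := miss_le k 0 H A B U v _ (hT.hA v (mem_sdiff.1 hv).1)
      rw [hcV] at h1
      linarith)
    (by
      intro v hv
      have h1 := miss_le k 1 H A B U v _ (hT.hB v (mem_sdiff.1 hv).1 1 (Or.inl rfl))
      rw [hcV] at h1
      linarith)
    (fun v hv => hlost 0 v (hXA v hv))
    (fun v hv => hlost 1 v (hXB v (mem_sdiff.1 hv).1))
  rw [hpart] at hMU
  have hMsub : ∀ e ∈ M, Disjoint e U := by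
    intro e he
    have h1 : e ⊆ univ \ U := by
      rw [← hMU]
      exact subset_biUnion_of_mem id he
    exact disjoint_of_subset_left h1 sdiff_disjoint
  have hM1sub : ∀ e ∈ M1, e ⊆ U := fun e he => subset_biUnion_of_mem id he
  have hmt : Mtch (M1 ∪ M) := by
    intro e he e' he' hne
    rcases mem_union.1 he with h | h
    · rcases mem_union.1 he' with h' | h'
      · exact hMt e h e' h' hne
      · exact (disjoint_of_subset_right (hM1sub e h) (hMsub e' h')).symm
    · rcases mem_union.1 he' with h' | h'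
      · exact disjoint_of_subset_right (hM1sub e' h') (hMsub e h)
      · exact hMm e h e' h' hne
  refine ⟨M1 ∪ M, union_subset hM1 hMH, hmt, ?_⟩
  have hcov : (M1 ∪ M).biUnion id = univ := by
    rw [union_biUnion, hMU, ← hUdef]
    exact union_sdiff_of_subset (subset_univ U)
  have hc := congrArg card hcov
  rw [card_biUnion (t := id) (fun e he e' he' hne => hmt e he e' he' hne),
    sum_congr rfl (fun e he => (hU e (union_subset hM1 hMH he) : (id e).card = k)), sum_const,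
    smul_eq_mul, card_univ, hcV] at hc
  exact (Nat.div_eq_of_eq_mul_left (by omega) hc.symm).symm

theorem exp (h1 : S_TYP) (h2 : S_XCL) (h3 : S_GRD) (h4 : S_BL1) (h5 : S_BL2) : S_EXP := by
  intro k hk
  have hkR : (3 : ℝ) ≤ (k : ℝ) := by exact_mod_cast hk
  obtain ⟨ε, δ2, hε, hδ2, n2, H2⟩ := h2 k hk
  obtain ⟨δ3, hδ3, n3, H3⟩ := h3 k hk (ε / 2) (half_pos hε)
  obtain ⟨δ5, hδ5, n5, H5⟩ := h5 k hk
  -- the small constant
  obtain ⟨d, hd, d1, d2, d3, d4, d5⟩ : ∃ d : ℝ, 0 < d ∧ d ≤ δ2 ∧ 2 * d ≤ δ5 ∧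
      d * 2 ^ (k - 1) ≤ δ3 ∧ 4 * k * d ≤ ε ∧ 8 * (k : ℝ) ^ 3 * d ≤ 1 := by
    have p1 : (0 : ℝ) < 2 ^ (k - 1) := by positivity
    have p2 : (0 : ℝ) < 4 * k := by linarith
    have p3 : (0 : ℝ) < 8 * (k : ℝ) ^ 3 := by positivity
    refine ⟨min (min δ2 (δ5 / 2)) (min (δ3 / 2 ^ (k - 1)) (min (ε / (4 * k)) (1 / (8 * (k : ℝ) ^ 3)))),
      ?_, ?_, ?_, ?_, ?_, ?_⟩
    · refine lt_min (lt_min hδ2 (half_pos hδ5)) (lt_min (div_pos hδ3 p1)
        (lt_min (div_pos hε p2) (div_pos one_pos p3)))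
    · exact (min_le_left _ _).trans (min_le_left _ _)
    · have := (min_le_left (min δ2 (δ5 / 2)) (min (δ3 / 2 ^ (k - 1))
        (min (ε / (4 * k)) (1 / (8 * (k : ℝ) ^ 3))))).trans (min_le_right _ _)
      linarith
    · have := (min_le_right (min δ2 (δ5 / 2)) (min (δ3 / 2 ^ (k - 1))
        (min (ε / (4 * k)) (1 / (8 * (k : ℝ) ^ 3))))).trans (min_le_left _ _)
      rwa [le_div_iff₀ p1] at this
    · have := ((min_le_right (min δ2 (δ5 / 2)) (min (δ3 / 2 ^ (k - 1))
        (min (ε / (4 * k)) (1 / (8 * (k : ℝ) ^ 3))))).trans (min_le_right _ _)).trans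
          (min_le_left _ _)
      rw [le_div_iff₀ p2] at this
      linarith
    · have := ((min_le_right (min δ2 (δ5 / 2)) (min (δ3 / 2 ^ (k - 1))
        (min (ε / (4 * k)) (1 / (8 * (k : ℝ) ^ 3))))).trans (min_le_right _ _)).trans
          (min_le_right _ _)
      rw [le_div_iff₀ p3] at this
      linarith
  obtain ⟨γ, hγ, n1, H1⟩ := h1 k hk d hd
  obtain ⟨m1, L1⟩ := deg_lim k hk γ hγ
  obtain ⟨m2, L2⟩ := deg_lim k hk δ2 hδ2
  refine ⟨γ, hγ, max (max (max n1 n2) (max (2 * n3) n5)) (max m1 m2), ?_⟩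
  intro n hn hkn H hU hdeg hEx
  have hcV : Fintype.card (Fin n) = n := Fintype.card_fin n
  have a1 : n1 ≤ n := ((le_max_left _ _).trans (le_max_left _ _)).trans ((le_max_left _ _).trans hn)
  have a2 : n2 ≤ n := ((le_max_right _ _).trans (le_max_left _ _)).trans
    ((le_max_left _ _).trans hn)
  have a3 : 2 * n3 ≤ n := ((le_max_left _ _).trans (le_max_right _ _)).trans
    ((le_max_left _ _).trans hn)
  have a5 : n5 ≤ n := ((le_max_right _ _).trans (le_max_right _ _)).trans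
    ((le_max_left _ _).trans hn)
  have b1 : m1 ≤ n := (le_max_left _ _).trans ((le_max_right _ _).trans hn)
  have b2 : m2 ≤ n := (le_max_right _ _).trans ((le_max_right _ _).trans hn)
  have hn0 : (0 : ℝ) ≤ (n : ℝ) := Nat.cast_nonneg n
  -- the degree condition
  have hDeg : ∀ η : ℝ, (((n - n / k).choose (k - 1) : ℕ) : ℝ) ≤
      ((1 - 1 / (k : ℝ)) ^ (k - 1) + η) * (((n - 1).choose (k - 1) : ℕ) : ℝ) → DegC k η H := by
    intro η hη v
    rw [hcV]
    have e1 := hdeg v
    have e2 : (((n - 1).choose (k - 1) : ℕ) : ℝ) - (((n - n / k).choose (k - 1) : ℕ) : ℝ) ≤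
        (dg H v : ℝ) := by
      have e3 : (n - 1).choose (k - 1) ≤ dg H v + (n - n / k).choose (k - 1) := by omega
      have e4 : (((n - 1).choose (k - 1) : ℕ) : ℝ) ≤ (dg H v : ℝ) +
        (((n - n / k).choose (k - 1) : ℕ) : ℝ) := by exact_mod_cast e3
      linarith
    linarith
  obtain ⟨A, B, X, hT⟩ := H1 (Fin n) (by rw [hcV]; exact a1) H hU (hDeg γ (L1 n b1 hkn)) hEx
  have hrich := H2 (Fin n) (by rw [hcV]; exact a2) H hU (hDeg δ2 (L2 n b2 hkn)) A B X
    (typ_mono d1 hT)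
  rw [hcV] at hrich
  -- the two kinds of exceptional vertices
  obtain ⟨XA, hXAdef⟩ : ∃ XA, XA = X.filter (fun v =>
    ¬ ε * (n : ℝ) ^ (k - 1) ≤ ((ty k 1 H A B v).card : ℝ)) := ⟨_, rfl⟩
  obtain ⟨XB, hXBdef⟩ : ∃ XB, XB = X.filter (fun v =>
    ε * (n : ℝ) ^ (k - 1) ≤ ((ty k 1 H A B v).card : ℝ)) := ⟨_, rfl⟩
  have hX : XA ∪ XB = X := by
    rw [hXAdef, hXBdef, union_comm]
    exact filter_union_filter_not_eq _ _
  have hXd : Disjoint XA XB := by
    rw [hXAdef, hXBdef]
    exact (disjoint_filter_filter_not X X _).symm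
  have hXA : ∀ v ∈ XA, ε * (n : ℝ) ^ (k - 1) ≤ ((ty k 0 H A B v).card : ℝ) := by
    intro v hv
    rw [hXAdef, mem_filter] at hv
    exact (hrich v).resolve_right hv.2
  have hXB : ∀ v ∈ XB, ε * (n : ℝ) ^ (k - 1) ≤ ((ty k 1 H A B v).card : ℝ) := by
    intro v hv
    rw [hXBdef, mem_filter] at hv
    exact hv.2
  have hXAX : XA ⊆ X := hX ▸ subset_union_left
  have hAXA : Disjoint A XA := hT.dAX.mono_right hXAX
  have c3 : 4 * (k : ℝ) * d ≤ 1 := by
    have h6 : 4 * (k : ℝ) ≤ 8 * (k : ℝ) ^ 3 := by nlinarith [sq_nonneg ((k : ℝ) - 1)]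
    exact (mul_le_mul_of_nonneg_right h6 hd.le).trans d5
  have hkq : (k : ℝ) * ((n / k : ℕ) : ℝ) = n := by exact_mod_cast Nat.mul_div_cancel' hkn
  have hq : ((n / k : ℕ) : ℝ) = 1 / (k : ℝ) * n := by
    rw [← hkq]
    have : (k : ℝ) ≠ 0 := by linarith
    field_simp
  have hA1card : (A ∪ XA).card = A.card + XA.card := card_union_of_disjoint hAXA
  have hAlow := hT.a2
  have hAup := hT.a1
  have hXup := hT.xs
  rw [hcV] at hAlow hAup hXup
  have hXAup : (XA.card : ℝ) ≤ X.card := by exact_mod_cast card_le_card hXAX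
  rcases le_or_gt (A ∪ XA).card (n / k) with hcase | hcase
  · -- first case
    have ht : ((n / k - (A ∪ XA).card : ℕ) : ℝ) ≤ d * n := by
      rw [Nat.cast_sub hcase, hq, hA1card]
      push_cast
      have : (0 : ℝ) ≤ XA.card := Nat.cast_nonneg _
      linarith
    have ht8 : 8 * k ^ 3 * (n / k - (A ∪ XA).card) ≤ n := by
      have h6 : (8 * (k : ℝ) ^ 3) * ((n / k - (A ∪ XA).card : ℕ) : ℝ) ≤ n := by
        calc (8 * (k : ℝ) ^ 3) * ((n / k - (A ∪ XA).card : ℕ) : ℝ) ≤ (8 * (k : ℝ) ^ 3) * (d * n) :=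
              mul_le_mul_of_nonneg_left ht (by positivity)
          _ = (8 * (k : ℝ) ^ 3 * d) * n := by ring
          _ ≤ 1 * n := mul_le_mul_of_nonneg_right d5 hn0
          _ = n := one_mul _
      exact_mod_cast h6
    obtain ⟨M1, hM1, hMt, hMc, hMd⟩ := h4 k hk (Fin n) (by rw [hcV]; exact hkn) H hU
      (by rw [hcV]; exact hdeg) (A ∪ XA) (by rw [hcV]; exact hcase) (by rw [hcV]; exact ht8)
    rw [hcV] at hMc
    have hAU : A \ M1.biUnion id = A := by
      refine sdiff_eq_self_of_disjoint ?_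
      rw [disjoint_biUnion_right]
      intro e he
      exact ((hMd e he).mono_right subset_union_left).symm
    refine finish hk hkn hd hε H hU A B X hT H3 a3 d3 d4 c3 XA XB hX hXd hXA hXB M1 hM1 hMt
      (fun e he => (hMd e he).mono_right subset_union_right) ?_ ?_
    · rw [hMc]
      have : (0 : ℝ) ≤ d * n := mul_nonneg hd.le hn0
      linarith
    · rw [hAU, ← hA1card, hMc, ← Nat.mul_add, Nat.add_sub_cancel' hcase]
      exact Nat.mul_div_cancel' hkn
  · -- second case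
    have hσ : (((A ∪ XA).card - n / k : ℕ) : ℝ) ≤ 2 * d * n := by
      rw [Nat.cast_sub hcase.le, hq, hA1card]
      push_cast
      linarith
    obtain ⟨M1, hM1, hMt, hMc, hMd⟩ := H5 (Fin n) (by rw [hcV]; exact a5) H hU A B X
      (typ_mono (by linarith) hT) ((A ∪ XA).card - n / k) (by
        rw [hcV]
        exact hσ.trans (mul_le_mul_of_nonneg_right d2 hn0))
    have hABX : Disjoint (A ∪ B) X := disjoint_union_left.2 ⟨hT.dAX, hT.dBX⟩
    have hAU : (A ∩ M1.biUnion id).card = 2 * M1.card := by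
      rw [inter_biUnion, card_biUnion]
      · rw [sum_congr rfl (fun e he => (by
          rw [id, inter_comm]; exact (hMd e he).2 : (A ∩ id e).card = 2)), sum_const, smul_eq_mul,
          mul_comm]
      · intro e he e' he' hne
        exact (hMt e he e' he' hne).mono inter_subset_right inter_subset_right
    have hAs : (A \ M1.biUnion id).card + 2 * M1.card = A.card := by
      rw [← hAU]
      exact card_sdiff_add_card_inter A _
    refine finish hk hkn hd hε H hU A B X hT H3 a3 d3 d4 c3 XA XB hX hXd hXA hXB M1 hM1 hMt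
      (fun e he => hABX.mono (hMd e he).1 hXAX) ?_ ?_
    · rw [hMc]
      exact hσ
    · have e1 : (A \ M1.biUnion id).card + XA.card + M1.card = n / k := by
        omega
      rw [← Nat.mul_add, e1]
      exact Nat.mul_div_cancel' hkn

end Pool.Agent.W414.SAM
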